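import Mathlib

/-!
# Small time local controllability in dimension three may need unboundedly many switchings

The pair of polynomial vector fields on `ℝ³`

  `f₁ = (1, x, 2 (y - x²)² - x⁶)`,   `f₂ = (-1, x, - x⁶)`

is small time locally controllable at `0`, but for every `N` there is `t₀ > 0` such that the points
`(0, 0, z)`, `z < 0`, are not reachable in time less than `t₀` with at most `N` switchings.
-/

open Set Filter Topology MvPolynomial

namespace Pool.Agent.Results.MP_6714ac_an.UnboundedSwitchings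

/-- `Attain f t N`: the set of points reachable from `0` along the family `f` of vector fields on
`ℝⁿ` in total time less than `t` with at most `N` switchings: there are times
`0 = τ 0 < τ 1 < ⋯ < τ m < t`, `m ≤ N + 1`, indices `i 0, …, i (m - 1)` and a path `γ` which starts at
`0`, is an integral curve of `f (i j)` on `[τ j, τ (j + 1)]` for each `j < m`, and ends at the given
point at time `τ m`. -/
def Attain {n k : ℕ} (f : Fin k → (Fin n → ℝ) → (Fin n → ℝ)) (t : ℝ) (N : ℕ) :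
    Set (Fin n → ℝ) :=
  {x | ∃ (m : ℕ) (τ : ℕ → ℝ) (i : ℕ → Fin k) (γ : ℝ → Fin n → ℝ),
    m ≤ N + 1 ∧ τ 0 = 0 ∧ (∀ j < m, τ j < τ (j + 1)) ∧ τ m < t ∧ γ 0 = 0 ∧ γ (τ m) = x ∧
    ∀ j < m, IsIntegralCurveOn γ (fun _ => f (i j)) (Icc (τ j) (τ (j + 1)))}

/-- Small time local controllability at `0`. -/
def IsSTLC {n k : ℕ} (f : Fin k → (Fin n → ℝ) → (Fin n → ℝ)) : Prop :=
  ∀ t : ℝ, 0 < t → (0 : Fin n → ℝ) ∈ interior (⋃ N : ℕ, Attain f t N)

/-- The family of vector fields on `ℝⁿ` with polynomial components `P i j`. -/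
noncomputable def polyField {n k : ℕ} (P : Fin k → Fin n → MvPolynomial (Fin n) ℝ) :
    Fin k → (Fin n → ℝ) → (Fin n → ℝ) :=
  fun i x j => eval x (P i j)

/-! ## The example -/

/-- The two polynomial vector fields of the example: in the coordinates `x = X 0`, `y = X 1`,
`z = X 2` of `ℝ³` they are `(1, x, 2 (y - x²)² - x⁶)` and `(-1, x, -x⁶)`. -/
noncomputable def P0 : Fin 2 → Fin 3 → MvPolynomial (Fin 3) ℝ :=
  ![![1, X 0, 2 * (X 1 - X 0 ^ 2) ^ 2 - X 0 ^ 6], ![-1, X 0, -X 0 ^ 6]]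

lemma field0 (v : Fin 3 → ℝ) :
    polyField P0 0 v = ![1, v 0, 2 * (v 1 - v 0 ^ 2) ^ 2 - v 0 ^ 6] := by
  ext j
  fin_cases j <;> simp [polyField, P0]

lemma field1 (v : Fin 3 → ℝ) :
    polyField P0 1 v = ![-1, v 0, -v 0 ^ 6] := by
  ext j
  fin_cases j <;> simp [polyField, P0]

/-! ## Comparison of derivatives -/

lemma le_of_deriv_le {F G F' G' : ℝ → ℝ} {a b : ℝ}
    (hF : ∀ s ∈ Icc a b, HasDerivWithinAt F (F' s) (Icc a b) s)
    (hG : ∀ s ∈ Icc a b, HasDerivWithinAt G (G' s) (Icc a b) s)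
    (h0 : F a ≤ G a) (h : ∀ s ∈ Icc a b, F' s ≤ G' s) : ∀ s ∈ Icc a b, F s ≤ G s := by
  have right : ∀ {H H' : ℝ → ℝ}, (∀ s ∈ Icc a b, HasDerivWithinAt H (H' s) (Icc a b) s) →
      ∀ s ∈ Ico a b, HasDerivWithinAt H (H' s) (Ici s) s := by
    intro H H' hH s hs
    have h1 := (hH s ⟨hs.1, hs.2.le⟩).mono (Icc_subset_Icc_left hs.1)
    exact h1.mono_of_mem_nhdsWithin (Icc_mem_nhdsGE hs.2)
  intro s hs
  exact image_le_of_deriv_right_le_deriv_boundary (fun x hx => (hF x hx).continuousWithinAt)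
    (right hF) h0 (fun x hx => (hG x hx).continuousWithinAt) (right hG)
    (fun x hx => h x ⟨hx.1, hx.2.le⟩) hs

lemma eq_of_deriv_eq {F G F' : ℝ → ℝ} {a b : ℝ}
    (hF : ∀ s ∈ Icc a b, HasDerivWithinAt F (F' s) (Icc a b) s)
    (hG : ∀ s ∈ Icc a b, HasDerivWithinAt G (F' s) (Icc a b) s)
    (h0 : F a = G a) : ∀ s ∈ Icc a b, F s = G s := fun s hs =>
  le_antisymm (le_of_deriv_le hF hG h0.le (fun _ _ => le_rfl) s hs)
    (le_of_deriv_le hG hF h0.ge (fun _ _ => le_rfl) s hs)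

/-! ## Lower bound for few switchings -/

/-- On an arc of `f₁`. -/
lemma arc0 {γ : ℝ → Fin 3 → ℝ} {a b : ℝ} (hab : a ≤ b)
    (h : IsIntegralCurveOn γ (fun _ => polyField P0 0) (Icc a b)) (hx : |γ a 0| ≤ a) :
    γ b 0 = γ a 0 + (b - a) ∧ |γ b 0| ≤ b ∧
      γ a 2 + a ^ 7 / 7 + (b - a) ^ 5 / 360 ≤ γ b 2 + b ^ 7 / 7 := by
  have hd : ∀ s ∈ Icc a b, ∀ j, HasDerivWithinAt (fun r => γ r j)
      ((![1, γ s 0, 2 * (γ s 1 - γ s 0 ^ 2) ^ 2 - γ s 0 ^ 6] : Fin 3 → ℝ) j) (Icc a b) s := by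
    intro s hs
    have h1 := h s hs
    simp only [field0] at h1
    exact hasDerivWithinAt_pi.1 h1
  have h0 : ∀ s ∈ Icc a b, γ s 0 = γ a 0 + (s - a) := by
    apply eq_of_deriv_eq (F' := fun _ => 1)
    · intro s hs
      simpa using hd s hs 0
    · intro s hs
      exact (((hasDerivAt_id s).sub_const a).const_add _).hasDerivWithinAt
    · simp
  have h1 : ∀ s ∈ Icc a b, γ s 1 = γ a 1 + γ a 0 * (s - a) + (s - a) ^ 2 / 2 := by
    apply eq_of_deriv_eq (F' := fun s => γ s 0)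
    · intro s hs
      simpa using hd s hs 1
    · intro s hs
      rw [h0 s hs]
      have e : HasDerivAt (fun s => γ a 1 + γ a 0 * (s - a) + (s - a) ^ 2 / 2)
          (γ a 0 * 1 + (2 * (s - a) ^ 1 * 1) / 2) s := by
        have e1 : HasDerivAt (fun s => s - a) 1 s := (hasDerivAt_id s).sub_const a
        exact ((e1.const_mul (γ a 0)).const_add _).add ((e1.pow 2).div_const 2)
      have e2 : γ a 0 * 1 + (2 * (s - a) ^ 1 * 1) / 2 = γ a 0 + (s - a) := by ring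
      rw [e2] at e
      exact e.hasDerivWithinAt
    · simp
  have hxs : ∀ s ∈ Icc a b, |γ s 0| ≤ s := by
    intro s hs
    rw [h0 s hs, abs_le]
    rw [abs_le] at hx
    constructor <;> linarith [hs.1, hx.1, hx.2]
  refine ⟨h0 b ⟨hab, le_rfl⟩, hxs b ⟨hab, le_rfl⟩, ?_⟩
  set A := γ a 1 - γ a 0 ^ 2 with hA
  set B := γ a 0 with hB
  -- the explicit primitive
  let G : ℝ → ℝ := fun s => γ a 2 + a ^ 7 / 7 + 2 * (A ^ 2 * (s - a) + B ^ 2 * (s - a) ^ 3 / 3 +
    (s - a) ^ 5 / 20 - A * B * (s - a) ^ 2 - A * (s - a) ^ 3 / 3 + B * (s - a) ^ 4 / 4)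
  have hG : ∀ s, HasDerivAt G (2 * (A - B * (s - a) - (s - a) ^ 2 / 2) ^ 2) s := by
    intro s
    have e1 : HasDerivAt (fun s => s - a) 1 s := (hasDerivAt_id s).sub_const a
    have e := ((((((e1.const_mul (A ^ 2)).add (((e1.pow 3).const_mul (B ^ 2)).div_const 3)).add
      ((e1.pow 5).div_const 20)).sub ((e1.pow 2).const_mul (A * B))).sub
      (((e1.pow 3).const_mul A).div_const 3)).add
      (((e1.pow 4).const_mul B).div_const 4)).const_mul 2 |>.const_add (γ a 2 + a ^ 7 / 7)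
    refine e.congr_deriv ?_
    push_cast
    ring
  have hcmp : ∀ s ∈ Icc a b, G s ≤ γ s 2 + s ^ 7 / 7 := by
    apply le_of_deriv_le (fun s _ => (hG s).hasDerivWithinAt)
      (G' := fun s => (2 * (γ s 1 - γ s 0 ^ 2) ^ 2 - γ s 0 ^ 6) + s ^ 6)
    · intro s hs
      have e1 := hd s hs 2
      have e2 : HasDerivAt (fun s : ℝ => s ^ 7 / 7) (s ^ 6) s := by
        have := (hasDerivAt_pow 7 s).div_const 7
        refine this.congr_deriv ?_
        push_cast; ring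
      have e3 : HasDerivWithinAt (fun s => γ s 2 + s ^ 7 / 7) _ (Icc a b) s :=
        e1.add e2.hasDerivWithinAt
      simpa using e3
    · simp [G]
    · intro s hs
      have e1 : γ s 1 - γ s 0 ^ 2 = A - B * (s - a) - (s - a) ^ 2 / 2 := by
        rw [h1 s hs, h0 s hs, hA]; ring
      have e2 : γ s 0 ^ 6 ≤ s ^ 6 := by
        have := pow_le_pow_left₀ (abs_nonneg _) (hxs s hs) 6
        rwa [Even.pow_abs (by decide)] at this
      rw [e1]
      linarith
  have hb := hcmp b ⟨hab, le_rfl⟩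
  have hpoly : ∀ l : ℝ, 0 ≤ l → l ^ 5 / 360 ≤ 2 * (A ^ 2 * l + B ^ 2 * l ^ 3 / 3 +
    l ^ 5 / 20 - A * B * l ^ 2 - A * l ^ 3 / 3 + B * l ^ 4 / 4) := by
    intro l hl
    have e : 2 * (A ^ 2 * l + B ^ 2 * l ^ 3 / 3 +
      l ^ 5 / 20 - A * B * l ^ 2 - A * l ^ 3 / 3 + B * l ^ 4 / 4) - l ^ 5 / 360 =
      2 * l * ((A - B * l / 2 - l ^ 2 / 6) ^ 2 + l ^ 2 / 12 * (B + l / 2) ^ 2) := by ring
    have : 0 ≤ 2 * l * ((A - B * l / 2 - l ^ 2 / 6) ^ 2 + l ^ 2 / 12 * (B + l / 2) ^ 2) := by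
      positivity
    linarith
  have := hpoly (b - a) (by linarith)
  have hGb : G b = γ a 2 + a ^ 7 / 7 + 2 * (A ^ 2 * (b - a) + B ^ 2 * (b - a) ^ 3 / 3 +
    (b - a) ^ 5 / 20 - A * B * (b - a) ^ 2 - A * (b - a) ^ 3 / 3 + B * (b - a) ^ 4 / 4) := rfl
  linarith

/-- On an arc of `f₂`. -/
lemma arc1 {γ : ℝ → Fin 3 → ℝ} {a b : ℝ} (hab : a ≤ b)
    (h : IsIntegralCurveOn γ (fun _ => polyField P0 1) (Icc a b)) (hx : |γ a 0| ≤ a) :
    γ b 0 = γ a 0 - (b - a) ∧ |γ b 0| ≤ b ∧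
      γ a 2 + a ^ 7 / 7 ≤ γ b 2 + b ^ 7 / 7 := by
  have hd : ∀ s ∈ Icc a b, ∀ j, HasDerivWithinAt (fun r => γ r j)
      ((![-1, γ s 0, -γ s 0 ^ 6] : Fin 3 → ℝ) j) (Icc a b) s := by
    intro s hs
    have h1 := h s hs
    simp only [field1] at h1
    exact hasDerivWithinAt_pi.1 h1
  have h0 : ∀ s ∈ Icc a b, γ s 0 = γ a 0 - (s - a) := by
    apply eq_of_deriv_eq (F' := fun _ => -1)
    · intro s hs
      simpa using hd s hs 0
    · intro s hs
      exact (((hasDerivAt_id s).sub_const a).const_sub _).hasDerivWithinAt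
    · simp
  have hxs : ∀ s ∈ Icc a b, |γ s 0| ≤ s := by
    intro s hs
    rw [h0 s hs, abs_le]
    rw [abs_le] at hx
    constructor <;> linarith [hs.1, hx.1, hx.2]
  refine ⟨h0 b ⟨hab, le_rfl⟩, hxs b ⟨hab, le_rfl⟩, ?_⟩
  have hcmp : ∀ s ∈ Icc a b, (fun _ : ℝ => γ a 2 + a ^ 7 / 7) s ≤ γ s 2 + s ^ 7 / 7 := by
    apply le_of_deriv_le (F' := fun _ => 0) (G' := fun s => -γ s 0 ^ 6 + s ^ 6)
    · intro s _
      exact (hasDerivAt_const _ _).hasDerivWithinAt
    · intro s hs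
      have e1 := hd s hs 2
      have e2 : HasDerivAt (fun s : ℝ => s ^ 7 / 7) (s ^ 6) s := by
        have := (hasDerivAt_pow 7 s).div_const 7
        refine this.congr_deriv ?_
        push_cast; ring
      have e3 : HasDerivWithinAt (fun s => γ s 2 + s ^ 7 / 7) _ (Icc a b) s :=
        e1.add e2.hasDerivWithinAt
      simpa using e3
    · exact le_rfl
    · intro s hs
      have e2 : γ s 0 ^ 6 ≤ s ^ 6 := by
        have := pow_le_pow_left₀ (abs_nonneg _) (hxs s hs) 6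
        rwa [Even.pow_abs (by decide)] at this
      linarith
  exact hcmp b ⟨hab, le_rfl⟩

/-- With at most `N` switchings and in short time the third coordinate of a reachable point with
vanishing first coordinate is nonnegative. -/
lemma lower {t : ℝ} {N : ℕ} (htN : t ^ 2 * (N + 1) ^ 5 ≤ 7 / 11520) {v : Fin 3 → ℝ}
    (hv : v ∈ Attain (polyField P0) t N) (hv0 : v 0 = 0) : 0 ≤ v 2 := by
  obtain ⟨m, τ, i, γ, hm, hτ0, hτ, hτm, hγ0, hγm, hγ⟩ := hv
  have key : ∀ j : ℕ, j ≤ m → 0 ≤ τ j ∧ |γ (τ j) 0| ≤ τ j ∧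
      ∃ L : ℝ, 0 ≤ L ∧ γ (τ j) 0 + τ j ≤ 2 * j * L ∧ L ^ 5 / 360 ≤ γ (τ j) 2 + τ j ^ 7 / 7 := by
    intro j
    induction j with
    | zero =>
      intro _
      rw [hτ0, hγ0]
      exact ⟨le_rfl, by simp, 0, le_rfl, by simp, by simp⟩
    | succ j ih =>
      intro hj
      obtain ⟨h1, h2, L, hL, h3, h4⟩ := ih (by omega)
      have hlt := hτ j (by omega)
      have hc := hγ j (by omega)
      have hcase : i j = 0 ∨ i j = 1 := by omega
      rcases hcase with hi | hi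
      · rw [hi] at hc
        obtain ⟨e1, e2, e3⟩ := arc0 hlt.le hc h2
        refine ⟨by linarith, e2, max L (τ (j + 1) - τ j), le_max_of_le_left hL, ?_, ?_⟩
        · rw [e1]
          have m1 := le_max_left L (τ (j + 1) - τ j)
          have m2 := le_max_right L (τ (j + 1) - τ j)
          push_cast
          have : 2 * (j:ℝ) * L ≤ 2 * j * max L (τ (j + 1) - τ j) := by gcongr
          linarith
        · have hL5 : 0 ≤ L ^ 5 / 360 := by positivity
          have hl5 : 0 ≤ (τ (j + 1) - τ j) ^ 5 / 360 := by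
            have : 0 ≤ τ (j + 1) - τ j := by linarith
            positivity
          rcases le_total L (τ (j + 1) - τ j) with hle | hle
          · rw [max_eq_right hle]; linarith
          · rw [max_eq_left hle]; linarith
      · rw [hi] at hc
        obtain ⟨e1, e2, e3⟩ := arc1 hlt.le hc h2
        refine ⟨by linarith, e2, L, hL, ?_, by linarith⟩
        rw [e1]
        push_cast
        linarith
  obtain ⟨h1, -, L, hL, h3, h4⟩ := key m le_rfl
  rw [hγm] at h3 h4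
  rw [hv0] at h3
  set T := τ m with hT
  have hmN : (m : ℝ) ≤ N + 1 := by exact_mod_cast hm
  have hTL : T ≤ 2 * (N + 1) * L := by
    have : 2 * (m:ℝ) * L ≤ 2 * (N + 1) * L := by gcongr
    linarith
  have hT5 : T ^ 5 ≤ (2 * (N + 1) * L) ^ 5 := pow_le_pow_left₀ h1 hTL 5
  have hTt : T ^ 2 * (N + 1) ^ 5 ≤ 7 / 11520 := by
    refine le_trans ?_ htN
    gcongr
  -- `T^7/7 ≤ T^5/(11520 (N+1)^5) ≤ L^5/360`
  have hN5 : (0:ℝ) < (N + 1) ^ 5 := by positivity
  have e1 : T ^ 7 * (N + 1) ^ 5 ≤ 7 / 11520 * T ^ 5 := by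
    have : T ^ 7 * (N + 1) ^ 5 = (T ^ 2 * (N + 1) ^ 5) * T ^ 5 := by ring
    rw [this]
    gcongr
  have e2 : T ^ 7 * (N + 1) ^ 5 ≤ 7 / 360 * L ^ 5 * (N + 1) ^ 5 := by
    have e3 : (2 * (N + 1) * L) ^ 5 = 32 * (N + 1 : ℝ) ^ 5 * L ^ 5 := by ring
    rw [e3] at hT5
    linarith
  have e4 : T ^ 7 ≤ 7 / 360 * L ^ 5 := le_of_mul_le_mul_right e2 hN5
  linarith

/-! ## Constructing paths -/

/-- `v` is reached at time exactly `T`. -/
def Good {n k : ℕ} (f : Fin k → (Fin n → ℝ) → (Fin n → ℝ)) (T : ℝ) (v : Fin n → ℝ) : Prop :=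
  ∃ (m : ℕ) (τ : ℕ → ℝ) (i : ℕ → Fin k) (γ : ℝ → Fin n → ℝ),
    τ 0 = 0 ∧ (∀ j < m, τ j < τ (j + 1)) ∧ τ m = T ∧ γ 0 = 0 ∧ γ T = v ∧
    ∀ j < m, IsIntegralCurveOn γ (fun _ => f (i j)) (Icc (τ j) (τ (j + 1)))

lemma Good.attain {n k : ℕ} {f : Fin k → (Fin n → ℝ) → (Fin n → ℝ)} {T t : ℝ} {v : Fin n → ℝ}
    (h : Good f T v) (hT : T < t) : v ∈ ⋃ N : ℕ, Attain f t N := by
  obtain ⟨m, τ, i, γ, h0, h1, h2, h3, h4, h5⟩ := h
  exact mem_iUnion.2 ⟨m, m, τ, i, γ, by omega, h0, h1, by rwa [h2], h3, by rw [h2, h4], h5⟩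

lemma good_zero {n k : ℕ} (f : Fin (k + 1) → (Fin n → ℝ) → (Fin n → ℝ)) : Good f 0 0 :=
  ⟨0, fun _ => 0, fun _ => 0, fun _ => 0, rfl, by simp, rfl, rfl, rfl, by simp⟩

lemma mono_of_step {τ : ℕ → ℝ} {m : ℕ} (h : ∀ j < m, τ j < τ (j + 1)) :
    ∀ j ≤ m, τ j ≤ τ m := by
  intro j hj
  induction m with
  | zero =>
    have : j = 0 := by omega
    rw [this]
  | succ m ih =>
    rcases Nat.lt_or_ge j (m + 1) with h1 | h1
    · exact (ih (fun j hj => h j (by omega)) (by omega)).trans (h m (by omega)).le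
    · have : j = m + 1 := by omega
      rw [this]

lemma Good.step {n k : ℕ} {f : Fin k → (Fin n → ℝ) → (Fin n → ℝ)} {T : ℝ} {v : Fin n → ℝ}
    (h : Good f T v) (i₀ : Fin k) {σ : ℝ → Fin n → ℝ} (hσ0 : σ 0 = v)
    (hσ : ∀ s, HasDerivAt σ (f i₀ (σ s)) s) {l : ℝ} (hl : 0 ≤ l) : Good f (T + l) (σ l) := by
  rcases hl.eq_or_lt with rfl | hl
  · rwa [add_zero, hσ0]
  obtain ⟨m, τ, i, γ, h0, h1, h2, h3, h4, h5⟩ := h
  have hmono := mono_of_step h1
  have hT0 : 0 ≤ T := by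
    rw [← h2, ← h0]; exact hmono 0 (by omega)
  refine ⟨m + 1, fun j => if j ≤ m then τ j else T + l, fun j => if j < m then i j else i₀,
    fun s => if s ≤ T then γ s else σ (s - T), ?_, ?_, ?_, ?_, ?_, ?_⟩
  · simp [h0]
  · intro j hj
    rcases Nat.lt_or_ge j m with hjm | hjm
    · simp only [if_pos hjm.le, if_pos (show j + 1 ≤ m by omega)]
      exact h1 j hjm
    · have : j = m := by omega
      subst this
      simp only [le_refl, if_true, if_neg (show ¬ (j + 1 ≤ j) by omega), h2]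
      linarith
  · simp
  · simp [hT0, h3]
  · simp only [if_neg (show ¬ (T + l ≤ T) by linarith), add_sub_cancel_left]
  · intro j hj
    rcases Nat.lt_or_ge j m with hjm | hjm
    · simp only [if_pos hjm.le, if_pos (show j + 1 ≤ m by omega), if_pos hjm]
      intro s hs
      have hsub : ∀ r ∈ Icc (τ j) (τ (j + 1)), r ≤ T := fun r hr =>
        hr.2.trans ((hmono (j + 1) (by omega)).trans h2.le)
      have e := h5 j hjm s hs
      simp only [if_pos (hsub s hs)]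
      exact e.congr (fun r hr => if_pos (hsub r hr)) (if_pos (hsub s hs))
    · have : j = m := by omega
      subst this
      simp only [le_refl, if_true, if_neg (show ¬ (j + 1 ≤ j) by omega), h2, lt_irrefl, if_false]
      intro s hs
      have hval : ∀ r ∈ Icc T (T + l), (if r ≤ T then γ r else σ (r - T)) = σ (r - T) := by
        intro r hr
        split_ifs with hrT
        · have : r = T := le_antisymm hrT hr.1
          rw [this, sub_self, h4, hσ0]
        · rfl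
      have e : HasDerivAt (fun r => σ (r - T)) (f i₀ (σ (s - T))) s :=
        (hσ (s - T)).comp_sub_const s T
      change HasDerivWithinAt (fun s => if s ≤ T then γ s else σ (s - T))
        (f i₀ (if s ≤ T then γ s else σ (s - T))) (Icc T (T + l)) s
      rw [hval s hs]
      exact e.hasDerivWithinAt.congr hval (hval s hs)

/-- Change of the third coordinate along an arc of `f₁` of duration `l` from `(x, y)`. -/
noncomputable def gp (l x y : ℝ) : ℝ :=
  2 * ((y - x ^ 2) ^ 2 * l + x ^ 2 * l ^ 3 / 3 + l ^ 5 / 20 - (y - x ^ 2) * x * l ^ 2 -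
    (y - x ^ 2) * l ^ 3 / 3 + x * l ^ 4 / 4) - ((x + l) ^ 7 - x ^ 7) / 7

/-- Change of the third coordinate along an arc of `f₂` of duration `l` from `(x, y)`. -/
noncomputable def gm (l x : ℝ) : ℝ := -((x ^ 7 - (x - l) ^ 7) / 7)

/-- `(x, y, z)` is reached at time exactly `T`. -/
def R (T x y z : ℝ) : Prop := Good (polyField P0) T ![x, y, z]

lemma R.plus {T x y z l : ℝ} (h : R T x y z) (hl : 0 ≤ l) :
    R (T + l) (x + l) (y + x * l + l ^ 2 / 2) (z + gp l x y) := by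
  have hσ : ∀ s, HasDerivAt (fun l : ℝ => (![x + l, y + x * l + l ^ 2 / 2, z + gp l x y] :
      Fin 3 → ℝ)) (polyField P0 0 (![x + s, y + x * s + s ^ 2 / 2, z + gp s x y])) s := by
    intro s
    rw [field0, hasDerivAt_pi]
    intro j
    have e1 : HasDerivAt (fun s : ℝ => s) 1 s := hasDerivAt_id s
    fin_cases j
    · simpa using e1.const_add x
    · have e := ((e1.const_mul x).const_add y).add ((e1.pow 2).div_const 2)
      simp only [Fin.mk_one, Matrix.cons_val_one, Matrix.cons_val_zero]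
      refine e.congr_deriv ?_
      push_cast; ring
    · have e := (((((((e1.const_mul ((y - x ^ 2) ^ 2)).add
        (((e1.pow 3).const_mul (x ^ 2)).div_const 3)).add
        ((e1.pow 5).div_const 20)).sub ((e1.pow 2).const_mul ((y - x ^ 2) * x))).sub
        (((e1.pow 3).const_mul (y - x ^ 2)).div_const 3)).add
        (((e1.pow 4).const_mul x).div_const 4)).const_mul 2).sub
        ((((e1.const_add x).pow 7).sub_const (x ^ 7)).div_const 7) |>.const_add z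
      simp only [gp, Fin.reduceFinMk, Matrix.cons_val]
      refine e.congr_deriv ?_
      push_cast; ring
  have := h.step 0 (σ := fun l : ℝ => ![x + l, y + x * l + l ^ 2 / 2, z + gp l x y])
    (by simp [gp]) hσ hl
  exact this

lemma R.minus {T x y z l : ℝ} (h : R T x y z) (hl : 0 ≤ l) :
    R (T + l) (x - l) (y + x * l - l ^ 2 / 2) (z + gm l x) := by
  have hσ : ∀ s, HasDerivAt (fun l : ℝ => (![x - l, y + x * l - l ^ 2 / 2, z + gm l x] :
      Fin 3 → ℝ)) (polyField P0 1 (![x - s, y + x * s - s ^ 2 / 2, z + gm s x])) s := by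
    intro s
    rw [field1, hasDerivAt_pi]
    intro j
    have e1 : HasDerivAt (fun s : ℝ => s) 1 s := hasDerivAt_id s
    fin_cases j
    · simpa using e1.const_sub x
    · have e := ((e1.const_mul x).const_add y).sub ((e1.pow 2).div_const 2)
      simp only [Fin.mk_one, Matrix.cons_val_one, Matrix.cons_val_zero]
      refine e.congr_deriv ?_
      push_cast; ring
    · have e := ((((e1.const_sub x).pow 7).const_sub (x ^ 7)).div_const 7).neg.const_add z
      simp only [gm, Fin.reduceFinMk, Matrix.cons_val]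
      refine e.congr_deriv ?_
      push_cast; ring
  have := h.step 1 (σ := fun l : ℝ => ![x - l, y + x * l - l ^ 2 / 2, z + gm l x])
    (by simp [gm]) hσ hl
  exact this

lemma R_zero : R 0 0 0 0 := by
  have := good_zero (n := 3) (k := 1) (polyField P0)
  have e : (![0, 0, 0] : Fin 3 → ℝ) = 0 := by
    ext j; fin_cases j <;> rfl
  unfold R
  rw [e]
  exact this

/-! ## The chattering cycle -/

/-- Change of the third coordinate along one cycle. -/
noncomputable def gc (h x : ℝ) : ℝ :=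
  gp (3 * h) x (x ^ 2) + gm (2 * h) (x + 3 * h) +
    gp (3 * h) (x + h) (x ^ 2 + 5 * x * h + 17 / 2 * h ^ 2)

lemma R.cycle {T x z h : ℝ} (hR : R T x (x ^ 2) z) (hh : 0 ≤ h) :
    R (T + 8 * h) (x + 4 * h) ((x + 4 * h) ^ 2) (z + gc h x) := by
  have h1 := hR.plus (l := 3 * h) (by linarith)
  have h2 := h1.minus (l := 2 * h) (by linarith)
  have h3 := h2.plus (l := 3 * h) (by linarith)
  have e1 : x + 3 * h - 2 * h = x + h := by ring
  have e2 : x ^ 2 + x * (3 * h) + (3 * h) ^ 2 / 2 + (x + 3 * h) * (2 * h) - (2 * h) ^ 2 / 2 =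
      x ^ 2 + 5 * x * h + 17 / 2 * h ^ 2 := by ring
  rw [e1, e2] at h3
  convert h3 using 1
  · ring
  · ring
  · ring
  · unfold gc; ring

lemma pow7_mono {u v : ℝ} (h : u ≤ v) : u ^ 7 ≤ v ^ 7 :=
  (Odd.strictMono_pow (by decide : Odd 7)).monotone h

lemma gc_le {h x : ℝ} (hh : 0 ≤ h) : gc h x ≤ 18 * (x ^ 2 + (x + 4 * h) ^ 2) * h ^ 3 := by
  have e : gc h x = 18 * (x ^ 2 + (x + 4 * h) ^ 2) * h ^ 3 - 567 / 5 * h ^ 5 -
      ((x + 3 * h) ^ 7 - x ^ 7) / 7 - ((x + 3 * h) ^ 7 - (x + h) ^ 7) / 7 -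
      ((x + 4 * h) ^ 7 - (x + h) ^ 7) / 7 := by
    unfold gc gp gm; ring
  have h1 := pow7_mono (show x ≤ x + 3 * h by linarith)
  have h2 := pow7_mono (show x + h ≤ x + 3 * h by linarith)
  have h3 := pow7_mono (show x + h ≤ x + 4 * h by linarith)
  have h5 : 0 ≤ h ^ 5 := by positivity
  rw [e]
  linarith

/-- Change of the third coordinate along `k` cycles starting at `(x, x²)`. -/
noncomputable def S (h : ℝ) : ℕ → ℝ → ℝ
  | 0, _ => 0
  | k + 1, x => gc h x + S h k (x + 4 * h)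

lemma R.cycles {h : ℝ} (hh : 0 ≤ h) (k : ℕ) : ∀ {T x z : ℝ}, R T x (x ^ 2) z →
    R (T + 8 * k * h) (x + 4 * k * h) ((x + 4 * k * h) ^ 2) (z + S h k x) := by
  induction k with
  | zero =>
    intro T x z hR
    simpa [S] using hR
  | succ k ih =>
    intro T x z hR
    have := ih (hR.cycle hh)
    convert this using 1
    · push_cast; ring
    · push_cast; ring
    · push_cast; ring
    · simp only [S]; ring

lemma S_le {h a : ℝ} (hh : 0 ≤ h) (k : ℕ) : ∀ {x : ℝ}, -a ≤ x → x + 4 * k * h ≤ a →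
    S h k x ≤ k * (36 * a ^ 2 * h ^ 3) := by
  induction k with
  | zero =>
    intro x _ _
    simp [S]
  | succ k ih =>
    intro x h1 h2
    push_cast at h2
    have hk : 0 ≤ (k:ℝ) * h := by positivity
    have e1 := ih (x := x + 4 * h) (by linarith) (by linarith)
    have e2 := gc_le (x := x) hh
    have e3 : x ^ 2 ≤ a ^ 2 := by
      apply sq_le_sq'
      · linarith
      · linarith
    have e4 : (x + 4 * h) ^ 2 ≤ a ^ 2 := by
      apply sq_le_sq'
      · linarith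
      · linarith
    have e5 : 18 * (x ^ 2 + (x + 4 * h) ^ 2) * h ^ 3 ≤ 36 * a ^ 2 * h ^ 3 := by
      have : 18 * (x ^ 2 + (x + 4 * h) ^ 2) ≤ 36 * a ^ 2 := by linarith
      gcongr
    simp only [S]
    push_cast
    linarith

lemma gc_cont : Continuous fun p : ℝ × ℝ => gc p.1 p.2 := by
  unfold gc gp gm
  fun_prop

lemma S_cont (k : ℕ) : Continuous fun p : ℝ × ℝ => S p.1 k p.2 := by
  induction k with
  | zero => simp only [S]; exact continuous_const
  | succ k ih =>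
    simp only [S]
    exact gc_cont.add (ih.comp (by fun_prop : Continuous fun p : ℝ × ℝ => (p.1, p.2 + 4 * p.1)))

/-- Change of the third coordinate along the whole loop. -/
noncomputable def J (M : ℕ) (h : ℝ) : ℝ :=
  S h M 0 + gm (8 * M * h) (4 * M * h) + S h M (-(4 * M * h))

lemma J_cont (M : ℕ) : Continuous (J M) := by
  unfold J gm
  have h1 : Continuous fun h : ℝ => S h M 0 :=
    (S_cont M).comp (by fun_prop : Continuous fun h : ℝ => (h, (0:ℝ)))
  have h2 : Continuous fun h : ℝ => S h M (-(4 * M * h)) :=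
    (S_cont M).comp (by fun_prop : Continuous fun h : ℝ => (h, -(4 * M * h)))
  exact (h1.add (by fun_prop)).add h2

lemma S_zero_left (k : ℕ) : ∀ x, S 0 k x = 0 := by
  induction k with
  | zero => intro x; rfl
  | succ k ih =>
    intro x
    simp only [S, ih]
    simp [gc, gp, gm]

lemma J_zero (M : ℕ) : J M 0 = 0 := by
  simp [J, S_zero_left, gm]

lemma R_J {M : ℕ} {h : ℝ} (hh : 0 ≤ h) : R (24 * M * h) 0 0 (J M h) := by
  have h0 : R 0 0 (0 ^ 2) 0 := by
    have := R_zero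
    simpa using this
  have h1 := R.cycles hh M h0
  have hM : 0 ≤ (M : ℝ) * h := by positivity
  have h2 := h1.minus (l := 8 * M * h) (by linarith)
  have e1 : (0:ℝ) + 4 * M * h - 8 * M * h = -(4 * M * h) := by ring
  have e2 : ((0:ℝ) + 4 * M * h) ^ 2 + (0 + 4 * M * h) * (8 * M * h) - (8 * M * h) ^ 2 / 2 =
      (-(4 * M * h)) ^ 2 := by ring
  rw [e1, e2] at h2
  have h3 := R.cycles hh M h2
  convert h3 using 1
  · ring
  · ring
  · ring
  · unfold J; ring_nf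

lemma J_neg {M : ℕ} (hM : 0 < M) : J M (1 / M ^ 2) < 0 := by
  have hM' : (0:ℝ) < M := by exact_mod_cast hM
  set h : ℝ := 1 / M ^ 2 with hh
  have hpos : 0 < h := by positivity
  have hMh : (M:ℝ) ^ 2 * h = 1 := by rw [hh]; field_simp
  have h1 := S_le (h := h) (a := 4 * M * h) hpos.le M (x := 0) (by
    have : 0 ≤ 4 * (M:ℝ) * h := by positivity
    linarith) (by linarith)
  have h2 := S_le (h := h) (a := 4 * M * h) hpos.le M (x := -(4 * M * h)) (by linarith)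
    (by
      have : 0 ≤ 4 * (M:ℝ) * h := by positivity
      linarith)
  have h3 : gm (8 * M * h) (4 * M * h) = -(32768 / 7 * (M * h) ^ 7) := by
    unfold gm; ring
  unfold J
  rw [h3]
  have e1 : (M:ℝ) * (36 * (4 * M * h) ^ 2 * h ^ 3) = 576 * ((M:ℝ) ^ 3 * h ^ 5) := by ring
  rw [e1] at h1 h2
  have e2 : ((M:ℝ) * h) ^ 7 = (M:ℝ) ^ 3 * h ^ 5 * ((M:ℝ) ^ 2 * h) ^ 2 := by ring
  rw [e2, hMh]
  have : 0 < (M:ℝ) ^ 3 * h ^ 5 := by positivity
  linarith

/-- Small negative values are reached on the third axis. -/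
lemma reach_neg {t : ℝ} (ht : 0 < t) : ∃ δ > 0, ∀ z, -δ ≤ z → z ≤ 0 → ∃ T < t, R T 0 0 z := by
  obtain ⟨M, hM⟩ := exists_nat_gt (24 / t)
  have hM0 : (0:ℝ) < M := lt_trans (by positivity) hM
  have hM1 : 0 < M := by exact_mod_cast hM0
  refine ⟨-J M (1 / M ^ 2), by linarith [J_neg hM1], ?_⟩
  intro z hz1 hz2
  have hle : (0:ℝ) ≤ 1 / M ^ 2 := by positivity
  have hivt := intermediate_value_Icc' hle (J_cont M).continuousOn
  rw [J_zero] at hivt
  obtain ⟨h, hh, hJ⟩ := hivt ⟨by linarith, hz2⟩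
  refine ⟨24 * M * h, ?_, hJ ▸ R_J hh.1⟩
  calc 24 * (M:ℝ) * h ≤ 24 * M * (1 / M ^ 2) := by gcongr; exact hh.2
    _ = 24 / M := by field_simp
    _ < t := by rwa [div_lt_iff₀ hM0, mul_comm, ← div_lt_iff₀ ht]

/-- Small positive values are reached on the third axis. -/
lemma reach_pos {t : ℝ} (ht : 0 < t) : ∃ δ > 0, ∀ z, 0 ≤ z → z ≤ δ → ∃ T < t, R T 0 0 z := by
  have hR : ∀ r : ℝ, 0 ≤ r → R (4 * r) 0 0 (r ^ 5 / 5 - 4 * r ^ 7 / 7) := by
    intro r hr
    have h1 := R_zero.plus hr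
    have h2 := h1.minus (l := 2 * r) (by linarith)
    have h3 := h2.plus hr
    convert h3 using 1
    · ring
    · ring
    · ring
    · unfold gp gm; ring
  set r₀ : ℝ := min (1 / 2) (t / 5) with hr₀
  have h0 : 0 < r₀ := lt_min (by norm_num) (by linarith)
  have h1 : r₀ ≤ 1 / 2 := min_le_left _ _
  have h2 : r₀ ≤ t / 5 := min_le_right _ _
  have hcont : Continuous fun r : ℝ => r ^ 5 / 5 - 4 * r ^ 7 / 7 := by fun_prop
  refine ⟨r₀ ^ 5 / 5 - 4 * r₀ ^ 7 / 7, ?_, ?_⟩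
  · have e : r₀ ^ 5 / 5 - 4 * r₀ ^ 7 / 7 = r₀ ^ 5 * (1 / 5 - 4 / 7 * r₀ ^ 2) := by ring
    rw [e]
    have : r₀ ^ 2 ≤ (1 / 2) ^ 2 := pow_le_pow_left₀ h0.le h1 2
    have h3 : 0 < 1 / 5 - 4 / 7 * r₀ ^ 2 := by linarith
    positivity
  · intro z hz1 hz2
    have hivt := intermediate_value_Icc h0.le hcont.continuousOn
    obtain ⟨r, hr, hrz⟩ := hivt ⟨by simpa using hz1, hz2⟩
    refine ⟨4 * r, by linarith [hr.2], ?_⟩
    have := hR r hr.1
    rwa [← hrz]

lemma reach_axis {t : ℝ} (ht : 0 < t) : ∃ δ > 0, ∀ z, |z| ≤ δ → ∃ T < t, R T 0 0 z := by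
  obtain ⟨δ₁, h1, h2⟩ := reach_neg ht
  obtain ⟨δ₂, h3, h4⟩ := reach_pos ht
  refine ⟨min δ₁ δ₂, lt_min h1 h3, fun z hz => ?_⟩
  have hz1 := hz.trans (min_le_left _ _)
  have hz2 := hz.trans (min_le_right _ _)
  rcases le_total z 0 with h | h
  · exact h2 z (by linarith [(abs_le.1 hz1).1]) h
  · exact h4 z h (abs_le.1 hz2).2

/-! ## Steering the first two coordinates -/

lemma steer₁ {T ζ a b : ℝ} (h : R T 0 0 ζ) (hab : a * |a| / 2 ≤ b) :
    R (T + √(b + a ^ 2 / 2) + (√(b + a ^ 2 / 2) - a)) a b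
      (ζ + (gp (√(b + a ^ 2 / 2)) 0 0 + gm (√(b + a ^ 2 / 2) - a) (√(b + a ^ 2 / 2)))) := by
  set p := √(b + a ^ 2 / 2) with hp
  have hp0 : 0 ≤ p := Real.sqrt_nonneg _
  have hnn : 0 ≤ b + a ^ 2 / 2 ∧ a ≤ p := by
    rcases le_total a 0 with ha | ha
    · rw [abs_of_nonpos ha] at hab
      exact ⟨by nlinarith, ha.trans hp0⟩
    · rw [abs_of_nonneg ha] at hab
      have : a ^ 2 ≤ b + a ^ 2 / 2 := by nlinarith
      exact ⟨(sq_nonneg a).trans this, Real.le_sqrt_of_sq_le this⟩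
  have hsq : p ^ 2 = b + a ^ 2 / 2 := Real.sq_sqrt hnn.1
  have h1 := h.plus hp0
  have h2 := h1.minus (l := p - a) (by linarith [hnn.2])
  convert h2 using 1
  · ring
  · linear_combination -hsq
  · simp only [zero_add]; ring

lemma steer₂ {T ζ a b : ℝ} (h : R T 0 0 ζ) (hab : b ≤ a * |a| / 2) :
    R (T + √(a ^ 2 / 2 - b) + (√(a ^ 2 / 2 - b) + a)) a b
      (ζ + (gm (√(a ^ 2 / 2 - b)) 0 + gp (√(a ^ 2 / 2 - b) + a) (-√(a ^ 2 / 2 - b))
        (-(√(a ^ 2 / 2 - b) ^ 2 / 2)))) := by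
  set p := √(a ^ 2 / 2 - b) with hp
  have hp0 : 0 ≤ p := Real.sqrt_nonneg _
  have hnn : 0 ≤ a ^ 2 / 2 - b ∧ -a ≤ p := by
    rcases le_total a 0 with ha | ha
    · rw [abs_of_nonpos ha] at hab
      have : (-a) ^ 2 ≤ a ^ 2 / 2 - b := by nlinarith
      exact ⟨(sq_nonneg _).trans this, Real.le_sqrt_of_sq_le this⟩
    · rw [abs_of_nonneg ha] at hab
      exact ⟨by nlinarith, by linarith⟩
  have hsq : p ^ 2 = a ^ 2 / 2 - b := Real.sq_sqrt hnn.1
  have h1 := h.minus hp0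
  have h2 := h1.plus (l := p + a) (by linarith [hnn.2])
  have e1 : (0:ℝ) - p = -p := by ring
  have e2 : (0:ℝ) + 0 * p - p ^ 2 / 2 = -(p ^ 2 / 2) := by ring
  rw [e1, e2] at h2
  convert h2 using 1
  · ring
  · linear_combination hsq
  · ring

lemma stlc : IsSTLC (polyField P0) := by
  intro t ht
  rw [mem_interior_iff_mem_nhds]
  obtain ⟨δ, hδ, hreach⟩ := reach_axis (t := t / 2) (by linarith)
  let T₁ : (Fin 3 → ℝ) → ℝ := fun v => √(v 1 + v 0 ^ 2 / 2) + (√(v 1 + v 0 ^ 2 / 2) - v 0)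
  let E₁ : (Fin 3 → ℝ) → ℝ := fun v => gp (√(v 1 + v 0 ^ 2 / 2)) 0 0 +
    gm (√(v 1 + v 0 ^ 2 / 2) - v 0) (√(v 1 + v 0 ^ 2 / 2))
  let T₂ : (Fin 3 → ℝ) → ℝ := fun v => √(v 0 ^ 2 / 2 - v 1) + (√(v 0 ^ 2 / 2 - v 1) + v 0)
  let E₂ : (Fin 3 → ℝ) → ℝ := fun v => gm (√(v 0 ^ 2 / 2 - v 1)) 0 +
    gp (√(v 0 ^ 2 / 2 - v 1) + v 0) (-√(v 0 ^ 2 / 2 - v 1)) (-(√(v 0 ^ 2 / 2 - v 1) ^ 2 / 2))
  have c1 : Continuous T₁ := by fun_prop
  have c2 : Continuous T₂ := by fun_prop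
  have c3 : Continuous E₁ := by simp only [E₁, gp, gm]; fun_prop
  have c4 : Continuous E₂ := by simp only [E₂, gp, gm]; fun_prop
  have v1 : T₁ 0 = 0 := by simp [T₁]
  have v2 : T₂ 0 = 0 := by simp [T₂]
  have v3 : E₁ 0 = 0 := by simp [E₁, gp, gm]
  have v4 : E₂ 0 = 0 := by simp [E₂, gp, gm]
  have n1 : ∀ᶠ v in 𝓝 (0 : Fin 3 → ℝ), T₁ v < t / 2 :=
    c1.continuousAt.eventually_lt continuousAt_const (by rw [v1]; linarith)
  have n2 : ∀ᶠ v in 𝓝 (0 : Fin 3 → ℝ), T₂ v < t / 2 :=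
    c2.continuousAt.eventually_lt continuousAt_const (by rw [v2]; linarith)
  have n3 : ∀ᶠ v in 𝓝 (0 : Fin 3 → ℝ), |v 2 - E₁ v| < δ := by
    have c : Continuous fun v : Fin 3 → ℝ => |v 2 - E₁ v| := by fun_prop
    exact c.continuousAt.eventually_lt continuousAt_const (by rw [v3]; simpa using hδ)
  have n4 : ∀ᶠ v in 𝓝 (0 : Fin 3 → ℝ), |v 2 - E₂ v| < δ := by
    have c : Continuous fun v : Fin 3 → ℝ => |v 2 - E₂ v| := by fun_prop
    exact c.continuousAt.eventually_lt continuousAt_const (by rw [v4]; simpa using hδ)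
  filter_upwards [n1, n2, n3, n4] with v w1 w2 w3 w4
  have hv : v = ![v 0, v 1, v 2] := by
    ext j; fin_cases j <;> rfl
  rcases le_total (v 0 * |v 0| / 2) (v 1) with hc | hc
  · obtain ⟨T, hT, hR⟩ := hreach (v 2 - E₁ v) w3.le
    have := steer₁ hR hc
    have e : v 2 - E₁ v + (gp (√(v 1 + v 0 ^ 2 / 2)) 0 0 +
      gm (√(v 1 + v 0 ^ 2 / 2) - v 0) (√(v 1 + v 0 ^ 2 / 2))) = v 2 := by
      simp only [E₁]; ring
    rw [e] at this
    unfold R at this
    rw [← hv] at this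
    refine this.attain ?_
    have : T₁ v = √(v 1 + v 0 ^ 2 / 2) + (√(v 1 + v 0 ^ 2 / 2) - v 0) := rfl
    linarith
  · obtain ⟨T, hT, hR⟩ := hreach (v 2 - E₂ v) w4.le
    have := steer₂ hR hc
    have e : v 2 - E₂ v + (gm (√(v 0 ^ 2 / 2 - v 1)) 0 +
      gp (√(v 0 ^ 2 / 2 - v 1) + v 0) (-√(v 0 ^ 2 / 2 - v 1))
        (-(√(v 0 ^ 2 / 2 - v 1) ^ 2 / 2))) = v 2 := by
      simp only [E₂]; ring
    rw [e] at this
    unfold R at this
    rw [← hv] at this
    refine this.attain ?_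
    have : T₂ v = √(v 0 ^ 2 / 2 - v 1) + (√(v 0 ^ 2 / 2 - v 1) + v 0) := rfl
    linarith

/-- **Theorem.** The pair `P0` of polynomial vector fields on `ℝ³`, that is
`f₁ = (1, x, 2 (y - x²)² - x⁶)` and `f₂ = (-1, x, -x⁶)`, is small time locally controllable at `0`,
and for every `N` there is `t₀ > 0` with `0 ∉ int A_t(N)` for all `0 < t ≤ t₀`. -/
theorem result : IsSTLC (polyField P0) ∧
    ∀ N : ℕ, ∃ t₀ : ℝ, 0 < t₀ ∧ ∀ t : ℝ, 0 < t → t ≤ t₀ →
      (0 : Fin 3 → ℝ) ∉ interior (Attain (polyField P0) t N) := by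
  refine ⟨stlc, fun N => ⟨1 / (100 * (N + 1) ^ 3), by positivity, fun t ht htle hcon => ?_⟩⟩
  have htN : t ^ 2 * (N + 1) ^ 5 ≤ 7 / 11520 := by
    have h1 : t ^ 2 ≤ (1 / (100 * ((N : ℝ) + 1) ^ 3)) ^ 2 := pow_le_pow_left₀ ht.le htle 2
    have hN : (1:ℝ) ≤ (N : ℝ) + 1 := by
      have : (0:ℝ) ≤ N := Nat.cast_nonneg N
      linarith
    have hN0 : (0:ℝ) < (N : ℝ) + 1 := by linarith
    calc t ^ 2 * ((N : ℝ) + 1) ^ 5
        ≤ (1 / (100 * ((N : ℝ) + 1) ^ 3)) ^ 2 * ((N : ℝ) + 1) ^ 5 := by gcongr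
      _ = 1 / (10000 * ((N : ℝ) + 1)) := by field_simp; norm_num
      _ ≤ 1 / (10000 * 1) := by gcongr
      _ ≤ 7 / 11520 := by norm_num
  rw [mem_interior_iff_mem_nhds] at hcon
  have hc : Continuous fun c : ℝ => (![0, 0, c] : Fin 3 → ℝ) := by
    apply continuous_pi
    intro j
    fin_cases j
    · exact continuous_const
    · exact continuous_const
    · exact continuous_id
  have h0 : (![0, 0, (0:ℝ)] : Fin 3 → ℝ) = 0 := by
    ext j; fin_cases j <;> rfl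
  have hev : ∀ᶠ c : ℝ in 𝓝 0, (![0, 0, c] : Fin 3 → ℝ) ∈ Attain (polyField P0) t N := by
    have := hc.tendsto 0
    simp only [h0] at this
    exact this hcon
  obtain ⟨c, hc1, hc2⟩ := ((hev.filter_mono nhdsWithin_le_nhds).and
    (self_mem_nhdsWithin : Iio (0:ℝ) ∈ 𝓝[<] 0)).exists
  have := lower htN hc1 rfl
  have hc3 : c < 0 := hc2
  simp at this
  linarith

end Pool.Agent.Results.MP_6714ac_an.UnboundedSwitchings
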